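import Pool.Agent.helper71.CK.F2c
import Pool.Agent.helper85.CK.F1

/-!
# Module F2 of the CK project: block Fourier matrices
-/

namespace Pool.Agent.helper32.CK

universe u v w

theorem Core.block {I : Type u} [Fintype I] [DecidableEq I] {τ : ℝ} {Y : En I → En I}
    {S : (En I →L[ℂ] En I) → (En I →L[ℂ] En I)}
    (h : Core τ Y S) (hτ0 : 0 ≤ τ) (hτ : τ ≤ 1 / 10 ^ 6) {κ : Type w}
    [Fintype κ] [DecidableEq κ] (n : κ → ℕ) [∀ k, NeZero (n k)] (e : (Σ k, ZMod (n k)) ≃ I) :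
    ∃ U : En I →L[ℂ] En I, (star U * U = 1 ∧ U * star U = 1) ∧
      (∀ k, U (EuclideanSpace.single (e ⟨k, 0⟩) 1) = ((Real.sqrt (n k : ℝ))⁻¹ : ℂ) •
        ∑ a : ZMod (n k), EuclideanSpace.single (e ⟨k, a⟩) (1 : ℂ)) ∧
      ∃ l : κ → ℂ, (∀ k, ‖l k ^ 2 - 1‖ ≤ 15200 * τ) ∧
        ‖S U - U * dg (fun i => l (e.symm i).1)‖ ≤ 2500 * τ :=
  ⟨Pool.Agent.helper71.CK.uu n e,
    ⟨Pool.Agent.helper71.CK.uu_star_mul n e, Pool.Agent.helper71.CK.uu_mul_star n e⟩,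
    Pool.Agent.helper71.CK.uu_single n e,
    Pool.Agent.helper71.CK.block_of n e hτ0 hτ S (h.norm_op hτ0 hτ) (h.op_diag hτ0 hτ)
      (h.op_mul hτ0 hτ) (h.op_perm hτ0 hτ)⟩

end Pool.Agent.helper32.CK
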