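import Pool.Agent.helper26.CK.K1

/-!
# Module K2 of the CK project: density of an irreducible representation
-/

namespace Pool.Agent.helper32.CK

open scoped InnerProductSpace ComplexOrder
open Filter Topology Finset

set_option linter.deprecated false
set_option linter.unusedSectionVars false

universe u v w

section K2

variable {H : Type v} [NormedAddCommGroup H] [InnerProductSpace ℂ H] [CompleteSpace H]
  {J : Type w} [Fintype J] [DecidableEq J]

/-- The diagonal operator on `H ^ J`. -/
noncomputable def K2_D (J : Type w) [Fintype J] (A : H →L[ℂ] H) :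
    PiLp 2 (fun _ : J => H) →L[ℂ] PiLp 2 (fun _ : J => H) :=
  ((PiLp.continuousLinearEquiv 2 ℂ (fun _ : J => H)).symm : (∀ _ : J, H) →L[ℂ] _) ∘L
    (ContinuousLinearMap.pi fun j => A ∘L ContinuousLinearMap.proj j) ∘L
      ((PiLp.continuousLinearEquiv 2 ℂ (fun _ : J => H)) : _ →L[ℂ] (∀ _ : J, H))

lemma K2_D_apply (A : H →L[ℂ] H) (x : PiLp 2 (fun _ : J => H)) (j : J) :
    K2_D J A x j = A (x j) := rfl

/-- The inclusion of the `j`-th coordinate. -/
noncomputable def K2_i (j : J) : H →L[ℂ] PiLp 2 (fun _ : J => H) :=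
  ((PiLp.continuousLinearEquiv 2 ℂ (fun _ : J => H)).symm : (∀ _ : J, H) →L[ℂ] _) ∘L
    ContinuousLinearMap.single ℂ (fun _ : J => H) j

lemma K2_i_apply (j k : J) (v : H) : K2_i j v k = if k = j then v else 0 := by
  have : (K2_i j v : PiLp 2 (fun _ : J => H)) k = (Pi.single j v : J → H) k := rfl
  rw [this, Pi.single_apply]

lemma K2_ext {x y : PiLp 2 (fun _ : J => H)} (h : ∀ j, x j = y j) : x = y := by
  ext j; exact h j

lemma K2_expand (x : PiLp 2 (fun _ : J => H)) : x = ∑ j, K2_i j (x j) := by
  apply K2_ext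
  intro k
  rw [WithLp.ofLp_sum, Finset.sum_apply, Finset.sum_eq_single k]
  · rw [K2_i_apply, if_pos rfl]
  · intro j _ hj
    rw [K2_i_apply, if_neg hj.symm]
  · simp

lemma K2_D_i (A : H →L[ℂ] H) (j : J) (v : H) : K2_D J A (K2_i j v) = K2_i j (A v) := by
  apply K2_ext
  intro k
  rw [K2_D_apply, K2_i_apply, K2_i_apply]
  split_ifs
  · rfl
  · simp

lemma K2_inner_D (A : H →L[ℂ] H) (x y : PiLp 2 (fun _ : J => H)) :
    ⟪x, K2_D J A y⟫_ℂ = ⟪K2_D J (star A) x, y⟫_ℂ := by
  rw [PiLp.inner_apply, PiLp.inner_apply]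
  refine Finset.sum_congr rfl fun j _ => ?_
  rw [K2_D_apply, K2_D_apply]
  exact (ContinuousLinearMap.adjoint_inner_left A (y j) (x j)).symm

lemma K2_norm_le (x : PiLp 2 (fun _ : J => H)) (C : ℝ) (hC : 0 ≤ C) (h : ∀ j, ‖x j‖ ≤ C) :
    ‖x‖ ≤ (Fintype.card J + 1) * C := by
  rw [PiLp.norm_eq_of_L2]
  apply Real.sqrt_le_iff.mpr
  refine ⟨by positivity, ?_⟩
  calc ∑ i, ‖x i‖ ^ 2 ≤ ∑ _i : J, C ^ 2 :=
        Finset.sum_le_sum fun i _ => pow_le_pow_left₀ (norm_nonneg _) (h i) 2
    _ = Fintype.card J * C ^ 2 := by rw [Finset.sum_const, Finset.card_univ, nsmul_eq_mul]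
    _ ≤ ((Fintype.card J + 1) * C) ^ 2 := by
        have h0 : (0 : ℝ) ≤ Fintype.card J := by positivity
        have h1 : (Fintype.card J : ℝ) ≤ (Fintype.card J + 1) ^ 2 := by nlinarith
        rw [mul_pow]
        exact mul_le_mul_of_nonneg_right h1 (sq_nonneg C)

end K2

section Irr
variable {B : Type u} [NonUnitalCStarAlgebra B] {H : Type v} [NormedAddCommGroup H]
  [InnerProductSpace ℂ H] [CompleteSpace H] {π : B →⋆ₙₐ[ℂ] (H →L[ℂ] H)}

/-- density, without adjoints -/
theorem K2_dens1 (hπ : Irr π) (T : H →L[ℂ] H) {J : Type w} [Fintype J] (v : J → H)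
    (κ : ℝ) (hκ : 0 < κ) : ∃ b : B, ∀ j, ‖π b (v j) - T (v j)‖ ≤ κ := by
  classical
  set X := PiLp 2 (fun _ : J => H) with hX
  -- the orbit map
  let L : B →ₗ[ℂ] X :=
    { toFun := fun b => WithLp.toLp 2 (fun j => π b (v j))
      map_add' := by
        intro a b
        apply K2_ext
        intro j
        have : π (a + b) (v j) = π a (v j) + π b (v j) := by rw [map_add]; rfl
        exact this
      map_smul' := by
        intro c b
        apply K2_ext
        intro j
        have : π (c • b) (v j) = c • π b (v j) := by rw [map_smul]; rfl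
        exact this }
  have hL : ∀ b j, L b j = π b (v j) := fun b j => rfl
  set E : Submodule ℂ X := (LinearMap.range L).topologicalClosure with hE
  have hEc : IsClosed (E : Set X) := Submodule.isClosed_topologicalClosure _
  have : CompleteSpace E := hEc.completeSpace_coe
  have hinv : ∀ a : B, ∀ x ∈ E, K2_D J (π a) x ∈ E := by
    intro a x hx
    have h1 : Set.MapsTo (K2_D J (π a)) (LinearMap.range L : Set X) (LinearMap.range L : Set X) := by
      rintro _ ⟨b, rfl⟩
      refine ⟨a * b, ?_⟩
      apply K2_ext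
      intro j
      rw [hL, K2_D_apply, hL, map_mul]
      rfl
    have h2 := h1.closure (K2_D J (π a)).continuous
    exact h2 hx
  -- the projection commutes with the diagonal operators
  set P : X →L[ℂ] X := E.starProjection with hP
  have hPE : ∀ x, P x ∈ E := fun x => E.starProjection_apply_mem x
  have hPc : ∀ (a : B) (x : X), P (K2_D J (π a) x) = K2_D J (π a) (P x) := by
    intro a x
    apply Submodule.eq_starProjection_of_mem_of_inner_eq_zero
    · exact hinv a _ (hPE x)
    · intro w hw
      rw [← map_sub]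
      have h1 : ⟪w, K2_D J (π a) (x - P x)⟫_ℂ = 0 := by
        rw [K2_inner_D, ← map_star]
        have h2 := hinv (star a) w hw
        have h3 := E.starProjection_inner_eq_zero x _ h2
        rw [← inner_conj_symm, h3, map_zero]
      rw [← inner_conj_symm, h1, map_zero]
  -- the matrix entries are scalars
  have hent : ∀ i j : J, ∃ c : ℂ, ∀ w : H, P (K2_i j w) i = c • w := by
    intro i j
    let Pij : H →L[ℂ] H := (PiLp.proj 2 (fun _ : J => H) i : X →L[ℂ] H) ∘L P ∘L K2_i j
    have hPij : ∀ w, Pij w = P (K2_i j w) i := fun w => rfl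
    obtain ⟨c, hc⟩ := Irr.schur hπ Pij (fun b => by
      ext w
      rw [ContinuousLinearMap.mul_apply, ContinuousLinearMap.mul_apply, hPij, hPij, ← K2_D_i, hPc,
        K2_D_apply])
    refine ⟨c, fun w => ?_⟩
    rw [← hPij, hc]
    rfl
  choose c hc using hent
  have hPx : ∀ (x : X) (i : J), P x i = ∑ j, c i j • x j := by
    intro x i
    conv_lhs => rw [K2_expand x]
    rw [map_sum, WithLp.ofLp_sum, Finset.sum_apply]
    exact Finset.sum_congr rfl fun j _ => hc i j _
  have hPT : ∀ x : X, P (K2_D J T x) = K2_D J T (P x) := by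
    intro x
    apply K2_ext
    intro i
    rw [hPx, K2_D_apply, hPx, map_sum]
    refine Finset.sum_congr rfl fun j _ => ?_
    rw [K2_D_apply, map_smul]
  -- the vector itself
  set V : X := WithLp.toLp 2 v with hV
  have hVj : ∀ j, V j = v j := fun j => rfl
  have hVE : V ∈ E := by
    have h1 : V ∈ closure (LinearMap.range L : Set X) := by
      rw [Metric.mem_closure_iff]
      intro ε hε
      have hC : (0 : ℝ) < Fintype.card J + 1 := by positivity
      obtain ⟨b, -, -, hb⟩ := Irr.approx_one hπ (Finset.univ.image v)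
        (ε / (2 * (Fintype.card J + 1))) (by positivity)
      refine ⟨L b, ⟨b, rfl⟩, ?_⟩
      rw [dist_comm, dist_eq_norm]
      have h2 := K2_norm_le (L b - V) (ε / (2 * (Fintype.card J + 1))) (by positivity) (fun j => by
        have := hb (v j) (Finset.mem_image_of_mem _ (Finset.mem_univ j))
        rw [PiLp.sub_apply, hL, hVj]
        exact this)
      have h3 : ((Fintype.card J : ℝ) + 1) * (ε / (2 * (Fintype.card J + 1))) = ε / 2 := by
        field_simp
      rw [h3] at h2
      linarith
    exact h1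
  have hTV : K2_D J T V ∈ E := by
    have h1 : P V = V := E.starProjection_eq_self_iff.mpr hVE
    have h2 := hPT V
    rw [h1] at h2
    rw [← h2]
    exact hPE _
  have h1 : K2_D J T V ∈ closure (LinearMap.range L : Set X) := hTV
  rw [Metric.mem_closure_iff] at h1
  obtain ⟨_, ⟨b, rfl⟩, hb⟩ := h1 κ hκ
  refine ⟨b, fun j => ?_⟩
  rw [dist_comm, dist_eq_norm] at hb
  have h2 := PiLp.norm_apply_le (L b - K2_D J T V) j
  rw [PiLp.sub_apply, hL, K2_D_apply, hVj] at h2
  linarith

/-- density, no norm control -/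
theorem Irr.dens (hπ : Irr π) (T : H →L[ℂ] H) (F : Finset H)
    (κ : ℝ) (hκ : 0 < κ) : ∃ b : B, ∀ v ∈ F, ‖π b v - T v‖ ≤ κ ∧
      ‖π (star b) v - (star T) v‖ ≤ κ := by
  classical
  let J := {x // x ∈ F}
  let v : J → H := fun j => j.1
  let X := (J → H) × (J → H)
  -- the real subspace
  let Φ : B → X := fun b => (fun j => π b (v j), fun j => π (star b) (v j))
  set M : Submodule ℝ X :=
    { carrier := Set.range Φ
      zero_mem' := ⟨0, by simp [Φ]; rfl⟩
      add_mem' := by
        rintro _ _ ⟨a, rfl⟩ ⟨b, rfl⟩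
        refine ⟨a + b, ?_⟩
        have h1 : ∀ j, π (a + b) (v j) = π a (v j) + π b (v j) := fun j => by rw [map_add]; rfl
        have h2 : ∀ j, π (star (a + b)) (v j) = π (star a) (v j) + π (star b) (v j) :=
          fun j => by rw [star_add, map_add]; rfl
        exact Prod.ext (funext h1) (funext h2)
      smul_mem' := by
        rintro r _ ⟨a, rfl⟩
        refine ⟨(r : ℂ) • a, ?_⟩
        have h1 : ∀ j, π ((r : ℂ) • a) (v j) = r • π a (v j) := fun j => by
          rw [map_smul, ContinuousLinearMap.smul_apply, Complex.coe_smul]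
        have h2 : ∀ j, π (star ((r : ℂ) • a)) (v j) = r • π (star a) (v j) := fun j => by
          rw [star_smul, map_smul, ContinuousLinearMap.smul_apply, Complex.star_def,
            Complex.conj_ofReal, Complex.coe_smul]
        exact Prod.ext (funext h1) (funext h2) } with hM
  have hMΦ : ∀ b, Φ b ∈ M := fun b => ⟨b, rfl⟩
  set p : X := (fun j => T (v j), fun j => (star T) (v j)) with hp
  have hmem : p ∈ closure (M : Set X) := by
    by_contra hnot
    have hconv : Convex ℝ (closure (M : Set X)) := M.convex.closure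
    obtain ⟨f, u, hf1, hf2⟩ := RCLike.geometric_hahn_banach_closed_point (𝕜 := ℂ) hconv
      isClosed_closure hnot
    have hzero : ∀ b, (f (Φ b)).re = 0 := by
      intro b
      by_contra hne
      -- scale
      have h1 : ∀ t : ℝ, t * (f (Φ b)).re < u := by
        intro t
        have h2 := hf1 (t • Φ b) (subset_closure (M.smul_mem t (hMΦ b)))
        have h3 : f (t • Φ b) = (t : ℂ) * f (Φ b) := by
          have : t • Φ b = (t : ℂ) • Φ b := by
            ext j <;> simp
          rw [this, map_smul, smul_eq_mul]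
        rw [h3] at h2
        simpa using h2
      have h2 := h1 (u / (f (Φ b)).re)
      rw [div_mul_cancel₀ _ hne] at h2
      exact lt_irrefl _ h2
    have hu : 0 < u := by
      have h1 := hf1 (Φ 0) (subset_closure (hMΦ 0))
      have h2 : (f (Φ 0)).re = 0 := hzero 0
      have h3 : RCLike.re (f (Φ 0)) = (f (Φ 0)).re := rfl
      rw [h3, h2] at h1
      exact h1
    -- the coordinates of `f`
    let f1 : J → StrongDual ℂ H := fun j =>
      f ∘L (ContinuousLinearMap.inl ℂ (J → H) (J → H)) ∘L (ContinuousLinearMap.single ℂ (fun _ : J => H) j)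
    let f2 : J → StrongDual ℂ H := fun j =>
      f ∘L (ContinuousLinearMap.inr ℂ (J → H) (J → H)) ∘L (ContinuousLinearMap.single ℂ (fun _ : J => H) j)
    let w1 : J → H := fun j => (InnerProductSpace.toDual ℂ H).symm (f1 j)
    let w2 : J → H := fun j => (InnerProductSpace.toDual ℂ H).symm (f2 j)
    have hw1 : ∀ j x, ⟪w1 j, x⟫_ℂ = f1 j x := fun j x => InnerProductSpace.toDual_symm_apply
    have hw2 : ∀ j x, ⟪w2 j, x⟫_ℂ = f2 j x := fun j x => InnerProductSpace.toDual_symm_apply
    have hf : ∀ x y : J → H, f (x, y) = ∑ j, ⟪w1 j, x j⟫_ℂ + ∑ j, ⟪w2 j, y j⟫_ℂ := by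
      intro x y
      have e1 : ((x, y) : X) = (ContinuousLinearMap.inl ℂ (J → H) (J → H)) x +
          (ContinuousLinearMap.inr ℂ (J → H) (J → H)) y := by
        ext j <;> simp
      have e2 : ∀ z : J → H, z = ∑ j, (ContinuousLinearMap.single ℂ (fun _ : J => H) j) (z j) := by
        intro z
        ext k
        rw [Finset.sum_apply, Finset.sum_eq_single k]
        · simp
        · intro j _ hj
          simp [Ne.symm hj]
        · simp
      rw [e1, map_add]
      congr 1
      · conv_lhs => rw [e2 x]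
        rw [map_sum, map_sum]
        exact Finset.sum_congr rfl fun j _ => (hw1 j _).symm
      · conv_lhs => rw [e2 y]
        rw [map_sum, map_sum]
        exact Finset.sum_congr rfl fun j _ => (hw2 j _).symm
    -- the complex linear functional
    let l : B → ℂ := fun b => ∑ j, ⟪w1 j, π b (v j)⟫_ℂ + ∑ j, ⟪v j, π b (w2 j)⟫_ℂ
    have hadj : ∀ (A : H →L[ℂ] H) (x y : H), (⟪x, (star A) y⟫_ℂ).re = (⟪y, A x⟫_ℂ).re := by
      intro A x y
      have h1 : ⟪x, (star A) y⟫_ℂ = ⟪A x, y⟫_ℂ := ContinuousLinearMap.adjoint_inner_right A x y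
      rw [h1, ← inner_conj_symm]
      exact Complex.conj_re _
    have hl : ∀ b, (l b).re = (f (Φ b)).re := by
      intro b
      rw [hf]
      simp only [l, Complex.add_re, Complex.re_sum]
      congr 1
      refine Finset.sum_congr rfl fun j _ => ?_
      rw [map_star, hadj]
    have hl0 : ∀ b, l b = 0 := by
      intro b
      have h1 : (l b).re = 0 := by rw [hl, hzero]
      have h2 : (l (Complex.I • b)).re = 0 := by rw [hl, hzero]
      have h3 : l (Complex.I • b) = Complex.I * l b := by
        simp only [l, map_smul, ContinuousLinearMap.smul_apply, inner_smul_right, ← Finset.mul_sum,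
          mul_add]
      rw [h3] at h2
      have h4 : (l b).im = 0 := by simpa using h2
      exact Complex.ext h1 h4
    let lT : ℂ := ∑ j, ⟪w1 j, T (v j)⟫_ℂ + ∑ j, ⟪v j, T (w2 j)⟫_ℂ
    have hlT : lT = 0 := by
      set C : ℝ := ∑ j, ‖w1 j‖ + ∑ j, ‖v j‖ with hC
      have hC0 : 0 ≤ C := add_nonneg (Finset.sum_nonneg fun _ _ => norm_nonneg _)
        (Finset.sum_nonneg fun _ _ => norm_nonneg _)
      have hle : ∀ δ : ℝ, 0 < δ → ‖lT‖ ≤ C * δ := by
        intro δ hδ
        obtain ⟨b, hb⟩ := K2_dens1 hπ T (J := J ⊕ J) (Sum.elim v w2) δ hδ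
        have e1 : lT = ∑ j, ⟪w1 j, T (v j) - π b (v j)⟫_ℂ + ∑ j, ⟪v j, T (w2 j) - π b (w2 j)⟫_ℂ := by
          have h0 := hl0 b
          simp only [l] at h0
          simp only [inner_sub_right, Finset.sum_sub_distrib, lT]
          linear_combination h0
        rw [e1]
        refine (norm_add_le _ _).trans ?_
        rw [hC, add_mul, Finset.sum_mul, Finset.sum_mul]
        refine add_le_add ((norm_sum_le _ _).trans (Finset.sum_le_sum fun j _ => ?_))
          ((norm_sum_le _ _).trans (Finset.sum_le_sum fun j _ => ?_))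
        · refine (norm_inner_le_norm _ _).trans (mul_le_mul_of_nonneg_left ?_ (norm_nonneg _))
          rw [norm_sub_rev]
          exact hb (Sum.inl j)
        · refine (norm_inner_le_norm _ _).trans (mul_le_mul_of_nonneg_left ?_ (norm_nonneg _))
          rw [norm_sub_rev]
          exact hb (Sum.inr j)
      have h1 : ‖lT‖ ≤ 0 := by
        refine le_of_forall_pos_le_add fun ε hε => ?_
        have h2 := hle (ε / (C + 1)) (by positivity)
        have h3 : C * (ε / (C + 1)) ≤ ε := by
          rw [mul_div_assoc', div_le_iff₀ (by positivity)]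
          nlinarith
        linarith
      exact norm_le_zero_iff.mp h1
    have hfp : (f p).re = lT.re := by
      rw [hp, hf]
      simp only [lT, Complex.add_re, Complex.re_sum]
      congr 1
      refine Finset.sum_congr rfl fun j _ => ?_
      exact hadj T (w2 j) (v j)
    have h3 : RCLike.re (f p) = (f p).re := rfl
    rw [h3, hfp, hlT, Complex.zero_re] at hf2
    exact lt_asymm hu hf2
  rw [Metric.mem_closure_iff] at hmem
  obtain ⟨_, ⟨b, rfl⟩, hb⟩ := hmem κ hκ
  refine ⟨b, fun x hx => ?_⟩
  rw [dist_comm, dist_eq_norm] at hb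
  have h1 := (norm_fst_le (Φ b - p)).trans_lt hb
  have h2 := (norm_snd_le (Φ b - p)).trans_lt hb
  have h3 := (norm_le_pi_norm (Φ b - p).1 ⟨x, hx⟩).trans_lt h1
  have h4 := (norm_le_pi_norm (Φ b - p).2 ⟨x, hx⟩).trans_lt h2
  exact ⟨h3.le, h4.le⟩

end Irr

end Pool.Agent.helper32.CK
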