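import Pool.Agent.helper32.CK.Defs

/-!
# Module F2 of the CK project: block Fourier matrices (preparations)
-/

namespace Pool.Agent.helper71.CK

open scoped InnerProductSpace ComplexConjugate
open Pool.Agent.helper32.CK Finset

universe u v w

variable {I : Type u} [Fintype I] [DecidableEq I]

/-- The operator with matrix `M`. -/
noncomputable def op (M : Matrix I I ℂ) : En I →L[ℂ] En I :=
  (Matrix.toEuclideanCLM (𝕜 := ℂ) (n := I)) M

set_option linter.unusedSectionVars false
set_option linter.deprecated false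

lemma op_apply (M : Matrix I I ℂ) (x : En I) (i : I) : op M x i = ∑ j, M i j * x j := by
  have : (op M x).ofLp i = (M.mulVec x.ofLp) i := rfl
  rw [this, Matrix.mulVec, dotProduct]

lemma op_mul (M N : Matrix I I ℂ) : op (M * N) = op M * op N := by
  simp [op]

lemma op_one : op (1 : Matrix I I ℂ) = 1 := by
  simp [op]

lemma op_star (M : Matrix I I ℂ) : op (star M) = star (op M) :=
  map_star (Matrix.toEuclideanCLM (𝕜 := ℂ) (n := I)) M

lemma dg_eq (d : I → ℂ) : dg d = op (Matrix.diagonal d) := rfl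

lemma dg_apply (d : I → ℂ) (x : En I) (i : I) : dg d x i = d i * x i := by
  rw [dg_eq, op_apply, Finset.sum_eq_single i]
  · simp
  · intro j _ hj
    rw [Matrix.diagonal_apply_ne _ hj.symm, zero_mul]
  · simp

lemma pm_apply (p : Equiv.Perm I) (x : En I) (i : I) : pm p x i = x (p.symm i) := rfl

lemma ext_coord {x y : En I} (h : ∀ i, x i = y i) : x = y := by
  ext i; exact h i

lemma ext_op {A B : En I →L[ℂ] En I} (h : ∀ x i, A x i = B x i) : A = B := by
  ext x i; exact h x i

lemma norm_one_le' : ‖(1 : En I →L[ℂ] En I)‖ ≤ 1 := ContinuousLinearMap.norm_id_le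

lemma norm_dg_le (d : I → ℂ) (C : ℝ) (hC : 0 ≤ C) (hd : ∀ i, ‖d i‖ ≤ C) : ‖dg d‖ ≤ C := by
  refine ContinuousLinearMap.opNorm_le_bound _ hC fun x => ?_
  rw [EuclideanSpace.norm_eq, EuclideanSpace.norm_eq, ← Real.sqrt_sq hC, ← Real.sqrt_mul (sq_nonneg C)]
  apply Real.sqrt_le_sqrt
  rw [Finset.mul_sum]
  refine Finset.sum_le_sum fun i _ => ?_
  rw [dg_apply, norm_mul, mul_pow]
  exact mul_le_mul_of_nonneg_right (pow_le_pow_left₀ (norm_nonneg _) (hd i) 2) (sq_nonneg _)

lemma norm_pm_le (p : Equiv.Perm I) : ‖pm p‖ ≤ 1 := by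
  refine ContinuousLinearMap.opNorm_le_bound _ zero_le_one fun x => ?_
  rw [one_mul]
  exact (LinearIsometryEquiv.norm_map (LinearIsometryEquiv.piLpCongrLeft 2 ℂ ℂ p) x).le

lemma dg_mul (c d : I → ℂ) : dg c * dg d = dg (fun i => c i * d i) := by
  apply ext_op
  intro x i
  rw [ContinuousLinearMap.mul_apply, dg_apply, dg_apply, dg_apply, mul_assoc]

lemma dg_one : dg (fun _ : I => (1 : ℂ)) = 1 := by
  apply ext_op
  intro x i
  rw [dg_apply, one_mul]
  rfl

lemma dg_sub (c d : I → ℂ) : dg c - dg d = dg (fun i => c i - d i) := by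
  apply ext_op
  intro x i
  rw [dg_apply, ContinuousLinearMap.sub_apply, PiLp.sub_apply, dg_apply, dg_apply, sub_mul]

lemma single_norm (i : I) : ‖(EuclideanSpace.single i (1 : ℂ) : En I)‖ = 1 := by
  simp

/-- an operator is determined by its values on the basis -/
lemma ext_basis {A B : En I →L[ℂ] En I}
    (h : ∀ i, A (EuclideanSpace.single i 1) = B (EuclideanSpace.single i 1)) : A = B := by
  ext x : 1
  have hx : x = ∑ i, x i • (EuclideanSpace.single i (1 : ℂ) : En I) := by
    apply ext_coord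
    intro j
    rw [WithLp.ofLp_sum, Finset.sum_apply, Finset.sum_eq_single j]
    · simp
    · intro i _ hi
      simp [Ne.symm hi]
    · simp
  rw [hx, map_sum, map_sum]
  refine Finset.sum_congr rfl fun i _ => ?_
  rw [map_smul, map_smul, h i]

/-- **Averaging over diagonal unitaries.** -/
lemma avg_diag {Z : Type v} [Fintype Z] [Nonempty Z] (d : Z → I → ℂ) (hd : ∀ z i, ‖d z i‖ = 1)
    (horth : ∀ i j, i ≠ j → ∑ z, conj (d z i) * d z j = 0) (R : En I →L[ℂ] En I) (δ : ℝ)
    (hR : ∀ z, ‖R * dg (d z) - dg (d z) * R‖ ≤ δ) :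
    ‖R - dg (fun i => (R (EuclideanSpace.single i 1)) i)‖ ≤ δ := by
  have hcard : (Fintype.card Z : ℂ) ≠ 0 := by
    exact_mod_cast Fintype.card_ne_zero
  have hcardR : (0 : ℝ) < Fintype.card Z := by
    exact_mod_cast Fintype.card_pos
  have hun : ∀ z, dg (fun i => conj (d z i)) * dg (d z) = 1 := by
    intro z
    rw [dg_mul, ← dg_one]
    congr 1
    funext i
    rw [← Complex.normSq_eq_conj_mul_self, Complex.normSq_eq_norm_sq, hd]
    norm_num
  set A : En I →L[ℂ] En I := (Fintype.card Z : ℂ)⁻¹ • ∑ z, dg (fun i => conj (d z i)) * R * dg (d z)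
    with hA
  have hA1 : A = dg (fun i => (R (EuclideanSpace.single i 1)) i) := by
    apply ext_basis
    intro j
    apply ext_coord
    intro i
    have h1 : ∀ z, dg (d z) (EuclideanSpace.single j (1 : ℂ)) =
        d z j • (EuclideanSpace.single j (1 : ℂ) : En I) := by
      intro z
      apply ext_coord
      intro i
      rw [dg_apply, PiLp.smul_apply, smul_eq_mul]
      by_cases h : i = j
      · rw [h]
      · simp [h]
    have h2 : ∀ z, (dg (fun i => conj (d z i)) * R * dg (d z)) (EuclideanSpace.single j (1 : ℂ)) i =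
        (conj (d z i) * d z j) * (R (EuclideanSpace.single j 1)) i := by
      intro z
      rw [ContinuousLinearMap.mul_apply, ContinuousLinearMap.mul_apply, h1, map_smul, map_smul,
        PiLp.smul_apply, dg_apply, smul_eq_mul]
      ring
    have h3 : A (EuclideanSpace.single j 1) i = (Fintype.card Z : ℂ)⁻¹ *
        ((∑ z, conj (d z i) * d z j) * (R (EuclideanSpace.single j 1)) i) := by
      rw [hA, ContinuousLinearMap.smul_apply, PiLp.smul_apply, smul_eq_mul,
        ContinuousLinearMap.sum_apply, WithLp.ofLp_sum, Finset.sum_apply, Finset.sum_mul]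
      congr 1
      exact Finset.sum_congr rfl fun z _ => h2 z
    rw [h3, dg_apply]
    by_cases hij : i = j
    · subst hij
      have h4 : ∑ z, conj (d z i) * d z i = (Fintype.card Z : ℂ) := by
        rw [Finset.sum_congr rfl (g := fun _ => (1 : ℂ))]
        · simp
        · intro z _
          rw [← Complex.normSq_eq_conj_mul_self, Complex.normSq_eq_norm_sq, hd]
          norm_num
      rw [h4]
      simp only [EuclideanSpace.single_apply, if_true, mul_one]
      rw [← mul_assoc, inv_mul_cancel₀ hcard, one_mul]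
    · rw [horth i j hij]
      simp [hij]
  rw [← hA1]
  have h5 : R - A = (Fintype.card Z : ℂ)⁻¹ •
      ∑ z, dg (fun i => conj (d z i)) * (dg (d z) * R - R * dg (d z)) := by
    have h6 : ∀ z, dg (fun i => conj (d z i)) * (dg (d z) * R - R * dg (d z)) =
        R - dg (fun i => conj (d z i)) * R * dg (d z) := by
      intro z
      rw [mul_sub, ← mul_assoc, ← mul_assoc, hun z, one_mul]
    rw [Finset.sum_congr rfl fun z _ => h6 z, Finset.sum_sub_distrib, smul_sub, ← hA]
    congr 1
    rw [Finset.sum_const, Finset.card_univ, ← Nat.cast_smul_eq_nsmul ℂ, smul_smul,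
      inv_mul_cancel₀ hcard, one_smul]
  rw [h5, norm_smul, norm_inv, Complex.norm_natCast]
  rw [inv_mul_le_iff₀ hcardR]
  refine (norm_sum_le _ _).trans ?_
  calc ∑ z, ‖dg (fun i => conj (d z i)) * (dg (d z) * R - R * dg (d z))‖ ≤ ∑ _z : Z, δ := by
        refine Finset.sum_le_sum fun z _ => ?_
        refine (norm_mul_le _ _).trans ?_
        have h7 : ‖dg (fun i => conj (d z i))‖ ≤ 1 := norm_dg_le _ 1 zero_le_one (fun i => by
          rw [RCLike.norm_conj, hd])
        have h8 : ‖dg (d z) * R - R * dg (d z)‖ ≤ δ := by rw [norm_sub_rev]; exact hR z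
        calc _ ≤ 1 * ‖dg (d z) * R - R * dg (d z)‖ := mul_le_mul_of_nonneg_right h7 (norm_nonneg _)
          _ ≤ δ := by rw [one_mul]; exact h8
    _ = Fintype.card Z * δ := by rw [Finset.sum_const, Finset.card_univ, nsmul_eq_mul]

/-- A sum over a finite set which is multiplied by `ζ ≠ 1` under a permutation vanishes. -/
lemma sum_zero_of_perm {Z : Type v} [Fintype Z] (f : Z → ℂ) (g : Z ≃ Z) (ζ : ℂ) (hζ : ζ ≠ 1)
    (h : ∀ z, f (g z) = ζ * f z) : ∑ z, f z = 0 := by
  have h1 : ∑ z, f z = ζ * ∑ z, f z := by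
    rw [Finset.mul_sum, ← Equiv.sum_comp g f]
    exact Finset.sum_congr rfl fun z _ => h z
  have h2 : (1 - ζ) * ∑ z, f z = 0 := by
    rw [sub_mul, one_mul, ← h1, sub_self]
  rcases mul_eq_zero.mp h2 with h3 | h3
  · exact absurd (sub_eq_zero.mp h3).symm hζ
  · exact h3

end Pool.Agent.helper71.CK
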