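import Pool.Agent.helper71.CK.F2a

/-!
# Module F2 of the CK project: block Fourier matrices
-/

namespace Pool.Agent.helper71.CK

open scoped InnerProductSpace ComplexConjugate
open Pool.Agent.helper32.CK Finset

set_option linter.unusedSectionVars false
set_option linter.deprecated false

universe u v w

variable {I : Type u} [Fintype I] [DecidableEq I]

section block

variable {κ : Type w} [Fintype κ] [DecidableEq κ] (n : κ → ℕ) [∀ k, NeZero (n k)]

/-- The Fourier matrix of `ZMod N`. -/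
noncomputable def FM (N : ℕ) [NeZero N] : Matrix (ZMod N) (ZMod N) ℂ :=
  fun a b => ((Real.sqrt (N : ℝ))⁻¹ : ℂ) * ZMod.stdAddChar (a * b)

lemma FM_apply (N : ℕ) [NeZero N] (a b : ZMod N) :
    FM N a b = ((Real.sqrt (N : ℝ))⁻¹ : ℂ) * ZMod.stdAddChar (a * b) := rfl

lemma sqrt_sq_inv (N : ℕ) [NeZero N] :
    ((Real.sqrt (N : ℝ))⁻¹ : ℂ) * ((Real.sqrt (N : ℝ))⁻¹ : ℂ) * N = 1 := by
  have hN : (0 : ℝ) < N := by exact_mod_cast Nat.pos_of_ne_zero (NeZero.ne N)
  have h1 : ((Real.sqrt (N : ℝ))⁻¹) * ((Real.sqrt (N : ℝ))⁻¹) * (N : ℝ) = 1 := by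
    rw [← mul_inv, Real.mul_self_sqrt hN.le, inv_mul_cancel₀ hN.ne']
  exact_mod_cast h1

lemma sum_char (N : ℕ) [NeZero N] (b : ZMod N) :
    ∑ x : ZMod N, (ZMod.stdAddChar (x * b) : ℂ) = if b = 0 then (N : ℂ) else 0 := by
  rw [AddChar.sum_mulShift b (ZMod.isPrimitive_stdAddChar N), ZMod.card]
  simp

lemma FM_star_mul (N : ℕ) [NeZero N] : star (FM N) * FM N = 1 := by
  ext a b
  rw [Matrix.mul_apply]
  have h1 : ∀ x : ZMod N, (star (FM N)) a x * FM N x b =
      (((Real.sqrt (N : ℝ))⁻¹ : ℂ) * ((Real.sqrt (N : ℝ))⁻¹ : ℂ)) *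
        ZMod.stdAddChar (x * (b - a)) := by
    intro x
    rw [Matrix.star_apply, FM_apply, FM_apply]
    have h2 : star ((ZMod.stdAddChar (x * a) : ℂ)) = ZMod.stdAddChar (-(x * a)) := by
      rw [AddChar.map_neg_eq_conj]; rfl
    rw [star_mul', h2]
    have h3 : star ((Real.sqrt (N : ℝ))⁻¹ : ℂ) = ((Real.sqrt (N : ℝ))⁻¹ : ℂ) := by
      rw [← Complex.ofReal_inv]
      exact Complex.conj_ofReal _
    rw [h3]
    have h4 : x * (b - a) = -(x * a) + x * b := by ring
    rw [h4, AddChar.map_add_eq_mul]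
    ring
  rw [Finset.sum_congr rfl fun x _ => h1 x, ← Finset.mul_sum, sum_char]
  by_cases hab : a = b
  · subst hab
    rw [sub_self, if_pos rfl, sqrt_sq_inv, Matrix.one_apply_eq]
  · have : b - a ≠ 0 := sub_ne_zero.mpr (Ne.symm hab)
    rw [if_neg this, mul_zero, Matrix.one_apply_ne hab]

lemma FM_mul_FM (N : ℕ) [NeZero N] (a b : ZMod N) :
    (FM N * FM N) a b = if a + b = 0 then 1 else 0 := by
  rw [Matrix.mul_apply]
  have h1 : ∀ x : ZMod N, FM N a x * FM N x b =
      (((Real.sqrt (N : ℝ))⁻¹ : ℂ) * ((Real.sqrt (N : ℝ))⁻¹ : ℂ)) *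
        ZMod.stdAddChar (x * (a + b)) := by
    intro x
    rw [FM_apply, FM_apply]
    have h4 : x * (a + b) = a * x + x * b := by ring
    rw [h4, AddChar.map_add_eq_mul]
    ring
  rw [Finset.sum_congr rfl fun x _ => h1 x, ← Finset.mul_sum, sum_char]
  by_cases hab : a + b = 0
  · rw [if_pos hab, if_pos hab, sqrt_sq_inv]
  · rw [if_neg hab, if_neg hab, mul_zero]

/-- The block Fourier matrix on the disjoint union of the blocks. -/
noncomputable def BF : Matrix (Σ k, ZMod (n k)) (Σ k, ZMod (n k)) ℂ :=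
  Matrix.blockDiagonal' fun k => FM (n k)

lemma BF_star_mul : star (BF n) * BF n = 1 := by
  have h1 : star (BF n) = Matrix.blockDiagonal' fun k => star (FM (n k)) := by
    rw [Matrix.star_eq_conjTranspose, BF, Matrix.blockDiagonal'_conjTranspose]
    rfl
  rw [h1, BF, ← Matrix.blockDiagonal'_mul, ← Matrix.blockDiagonal'_one]
  congr 1
  funext k
  exact FM_star_mul (n k)

variable (e : (Σ k, ZMod (n k)) ≃ I)

/-- The block Fourier operator. -/
noncomputable def uu : En I →L[ℂ] En I := op ((BF n).submatrix e.symm e.symm)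

lemma uu_star_mul : star (uu n e) * uu n e = 1 := by
  rw [uu, ← op_star, ← op_mul, ← op_one]
  congr 1
  rw [Matrix.star_eq_conjTranspose, Matrix.conjTranspose_submatrix, Matrix.submatrix_mul_equiv,
    ← Matrix.star_eq_conjTranspose, BF_star_mul, Matrix.submatrix_one_equiv]

lemma uu_mul_star : uu n e * star (uu n e) = 1 := by
  rw [uu, ← op_star, ← op_mul, ← op_one]
  congr 1
  rw [Matrix.star_eq_conjTranspose, Matrix.conjTranspose_submatrix, Matrix.submatrix_mul_equiv,
    ← Matrix.star_eq_conjTranspose, mul_eq_one_comm.mp (BF_star_mul n),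
    Matrix.submatrix_one_equiv]

lemma uu_apply (x : En I) (k : κ) (a : ZMod (n k)) :
    uu n e x (e ⟨k, a⟩) = ∑ b : ZMod (n k), FM (n k) a b * x (e ⟨k, b⟩) := by
  rw [uu, op_apply, ← Equiv.sum_comp e, Fintype.sum_sigma, Finset.sum_eq_single k]
  · refine Finset.sum_congr rfl fun b _ => ?_
    rw [Matrix.submatrix_apply, Equiv.symm_apply_apply, Equiv.symm_apply_apply, BF,
      Matrix.blockDiagonal'_apply_eq]
  · intro l _ hl
    refine Finset.sum_eq_zero fun b _ => ?_
    rw [Matrix.submatrix_apply, Equiv.symm_apply_apply, Equiv.symm_apply_apply, BF,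
      Matrix.blockDiagonal'_apply_ne _ _ _ (Ne.symm hl), zero_mul]
  · simp

/-- The block translation by `c`: `(k, a) ↦ (k, a + c k)`. -/
def sh (c : ∀ k, ZMod (n k)) : Equiv.Perm I :=
  (e.symm.trans (Equiv.sigmaCongrRight fun k => Equiv.addRight (c k))).trans e

lemma sh_symm_apply (c : ∀ k, ZMod (n k)) (k : κ) (a : ZMod (n k)) :
    (sh n e c).symm (e ⟨k, a⟩) = e ⟨k, a - c k⟩ := by
  rw [Equiv.symm_apply_eq]
  simp [sh, Equiv.sigmaCongrRight]

/-- The block parity. -/
def par : Equiv.Perm I :=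
  (e.symm.trans (Equiv.sigmaCongrRight fun k => Equiv.neg (ZMod (n k)))).trans e

lemma par_symm_apply (k : κ) (a : ZMod (n k)) : (par n e).symm (e ⟨k, a⟩) = e ⟨k, -a⟩ := by
  rw [Equiv.symm_apply_eq]
  simp [par, Equiv.sigmaCongrRight]

/-- The modulations on the disjoint union of the blocks. -/
noncomputable def moS (c : ∀ k, ZMod (n k)) (s : Σ k, ZMod (n k)) : ℂ :=
  ZMod.stdAddChar (c s.1 * s.2)

/-- The modulations. -/
noncomputable def mo (c : ∀ k, ZMod (n k)) : I → ℂ := fun i => moS n c (e.symm i)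

lemma mo_apply (c : ∀ k, ZMod (n k)) (k : κ) (a : ZMod (n k)) :
    mo n e c (e ⟨k, a⟩) = ZMod.stdAddChar (c k * a) := by
  simp only [mo, Equiv.symm_apply_apply]
  rfl

/-- The block signs. -/
noncomputable def si (θ : κ → ℤˣ) : I → ℂ := fun i => ((θ (e.symm i).1 : ℤ) : ℂ)

lemma si_apply (θ : κ → ℤˣ) (k : κ) (a : ZMod (n k)) :
    si n e θ (e ⟨k, a⟩) = ((θ k : ℤ) : ℂ) := by
  simp only [si, Equiv.symm_apply_apply]

lemma ext_e {x y : En I} (h : ∀ k (a : ZMod (n k)), x (e ⟨k, a⟩) = y (e ⟨k, a⟩)) : x = y := by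
  apply ext_coord
  intro i
  obtain ⟨⟨k, a⟩, rfl⟩ := e.surjective i
  exact h k a

/-- `u d = w u` for the sign-modulations `d`. -/
lemma uu_mod (θ : κ → ℤˣ) (c : ∀ k, ZMod (n k)) :
    uu n e * dg (fun i => si n e θ i * mo n e c i) =
      dg (si n e θ) * pm (sh n e (fun k => - c k)) * uu n e := by
  ext x : 1
  apply ext_e n e
  intro k a
  rw [ContinuousLinearMap.mul_apply, ContinuousLinearMap.mul_apply, ContinuousLinearMap.mul_apply,
    uu_apply, dg_apply, pm_apply, sh_symm_apply, uu_apply, si_apply, Finset.mul_sum]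
  refine Finset.sum_congr rfl fun b _ => ?_
  rw [dg_apply, si_apply, mo_apply, FM_apply, FM_apply]
  have h : (a - -c k) * b = a * b + c k * b := by ring
  rw [h, AddChar.map_add_eq_mul]
  ring

/-- `u X = D u` for the block shifts `X`. -/
lemma uu_shift (c : ∀ k, ZMod (n k)) :
    uu n e * pm (sh n e c) = dg (mo n e c) * uu n e := by
  ext x : 1
  apply ext_e n e
  intro k a
  rw [ContinuousLinearMap.mul_apply, ContinuousLinearMap.mul_apply, uu_apply, dg_apply, uu_apply,
    mo_apply, Finset.mul_sum, ← Equiv.sum_comp (Equiv.addRight (c k))]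
  refine Finset.sum_congr rfl fun b _ => ?_
  rw [pm_apply, sh_symm_apply, FM_apply, FM_apply]
  simp only [Equiv.coe_addRight, add_sub_cancel_right]
  have h : a * (b + c k) = a * b + c k * a := by ring
  rw [h, AddChar.map_add_eq_mul]
  ring

/-- `u² = parity`. -/
lemma uu_sq : uu n e * uu n e = pm (par n e) := by
  ext x : 1
  apply ext_e n e
  intro k a
  rw [ContinuousLinearMap.mul_apply, uu_apply, pm_apply, par_symm_apply]
  have h1 : ∀ b : ZMod (n k), FM (n k) a b * uu n e x (e ⟨k, b⟩) =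
      ∑ c : ZMod (n k), FM (n k) a b * FM (n k) b c * x (e ⟨k, c⟩) := by
    intro b
    rw [uu_apply, Finset.mul_sum]
    exact Finset.sum_congr rfl fun c _ => by ring
  rw [Finset.sum_congr rfl fun b _ => h1 b, Finset.sum_comm]
  have h2 : ∀ c : ZMod (n k), ∑ b : ZMod (n k), FM (n k) a b * FM (n k) b c * x (e ⟨k, c⟩) =
      (if a + c = 0 then 1 else 0) * x (e ⟨k, c⟩) := by
    intro c
    rw [← Finset.sum_mul, ← Matrix.mul_apply, FM_mul_FM]
  rw [Finset.sum_congr rfl fun c _ => h2 c, Finset.sum_eq_single (-a)]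
  · simp
  · intro c _ hc
    have : a + c ≠ 0 := by
      intro h
      exact hc (eq_neg_of_add_eq_zero_right h)
    rw [if_neg this, zero_mul]
  · simp

lemma uu_single (k : κ) : uu n e (EuclideanSpace.single (e ⟨k, 0⟩) 1) =
    ((Real.sqrt (n k : ℝ))⁻¹ : ℂ) •
        ∑ a : ZMod (n k), (EuclideanSpace.single (e ⟨k, a⟩) (1 : ℂ) : En I) := by
  apply ext_e n e
  intro l a
  rw [uu_apply, PiLp.smul_apply, WithLp.ofLp_sum, Finset.sum_apply, smul_eq_mul]
  by_cases hlk : l = k
  · subst hlk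
    rw [Finset.sum_eq_single 0, Finset.sum_eq_single a]
    · simp [FM_apply]
    · intro b _ hb
      simp [Ne.symm hb]
    · simp
    · intro b _ hb
      simp [hb]
    · simp
  · rw [Finset.sum_eq_zero, Finset.sum_eq_zero]
    · simp
    · intro b _
      simp [hlk]
    · intro b _
      simp [hlk]

lemma norm_uu_le : ‖uu n e‖ ≤ 1 := by
  have h1 := ContinuousLinearMap.norm_adjoint_comp_self (uu n e)
  have h3 : (ContinuousLinearMap.adjoint (uu n e)) ∘L (uu n e) = 1 := uu_star_mul n e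
  rw [h3] at h1
  have h2 : ‖(1 : En I →L[ℂ] En I)‖ ≤ 1 := norm_one_le'
  nlinarith [norm_nonneg (uu n e)]

lemma norm_star_uu_le : ‖star (uu n e)‖ ≤ 1 := by
  have h : ‖star (uu n e)‖ = ‖uu n e‖ :=
    LinearIsometryEquiv.norm_map ContinuousLinearMap.adjoint (uu n e)
  rw [h]; exact norm_uu_le n e

/-- the index set of the sign-modulations -/
lemma orth_mod (i j : I) (hij : i ≠ j) :
    ∑ z : (κ → ℤˣ) × (∀ k, ZMod (n k)),
      conj (si n e z.1 i * mo n e z.2 i) * (si n e z.1 j * mo n e z.2 j) = 0 := by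
  obtain ⟨⟨k, a⟩, rfl⟩ := e.surjective i
  obtain ⟨⟨l, b⟩, rfl⟩ := e.surjective j
  by_cases hkl : k = l
  · subst hkl
    have hab : b - a ≠ 0 := by
      intro h
      apply hij
      rw [sub_eq_zero.mp h]
    have hprim := ZMod.isPrimitive_stdAddChar (n k) hab
    obtain ⟨c, hc⟩ : ∃ c : ZMod (n k), ZMod.stdAddChar ((b - a) * c) ≠ (1 : ℂ) := by
      by_contra hcon
      push Not at hcon
      apply hprim
      ext c
      rw [AddChar.mulShift_apply, hcon c]
      rfl
    refine sum_zero_of_perm _ (Equiv.prodCongr (Equiv.refl _)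
      (Equiv.addRight (Pi.single k c))) (ZMod.stdAddChar ((b - a) * c)) hc ?_
    rintro ⟨θ, x⟩
    simp only [Equiv.prodCongr_apply, Prod.map_apply, Equiv.coe_refl, id_eq, Equiv.coe_addRight,
      si_apply, mo_apply, Pi.add_apply, Pi.single_eq_same, map_mul, ← AddChar.map_neg_eq_conj]
    have h1 : -((x k + c) * a) = -(x k * a) + -(c * a) := by ring
    have h2 : (x k + c) * b = x k * b + c * b := by ring
    have h3 : (b - a) * c = -(c * a) + c * b := by ring
    rw [h1, h2, h3, AddChar.map_add_eq_mul, AddChar.map_add_eq_mul, AddChar.map_add_eq_mul]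
    ring
  · refine sum_zero_of_perm _ (Equiv.prodCongr (Equiv.mulRight (Pi.mulSingle k (-1)))
      (Equiv.refl _)) (-1) (by norm_num) ?_
    rintro ⟨θ, x⟩
    simp only [Equiv.prodCongr_apply, Prod.map_apply, Equiv.coe_refl, id_eq, Equiv.coe_mulRight,
      si_apply, mo_apply, Pi.mul_apply, Pi.mulSingle_eq_same, map_mul]
    rw [Pi.mulSingle_eq_of_ne (Ne.symm hkl)]
    simp

lemma norm_si (θ : κ → ℤˣ) (i : I) : ‖si n e θ i‖ = 1 := by
  simp only [si]
  rcases Int.units_eq_one_or (θ (e.symm i).1) with h | h <;> rw [h] <;> simp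

lemma norm_mo (c : ∀ k, ZMod (n k)) (i : I) : ‖mo n e c i‖ = 1 :=
  AddChar.norm_apply _ _

end block

end Pool.Agent.helper71.CK
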