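import Pool.Agent.helper71.CK.F2b

/-!
# Module F2 of the CK project: block Fourier matrices, conclusion
-/

namespace Pool.Agent.helper71.CK

open scoped InnerProductSpace ComplexConjugate
open Pool.Agent.helper32.CK Finset

set_option linter.unusedSectionVars false
set_option linter.deprecated false

universe u v w

variable {I : Type u} [Fintype I] [DecidableEq I]

lemma mul_left_le {A B : En I →L[ℂ] En I} {a b : ℝ} (hA : ‖A‖ ≤ a) (hB : ‖B‖ ≤ b) :
    ‖A * B‖ ≤ a * b :=
  (norm_mul_le A B).trans (mul_le_mul hA hB (norm_nonneg _) ((norm_nonneg _).trans hA))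

/-- `‖A B - A' B'‖`. -/
lemma mul_close {A A' B B' : En I →L[ℂ] En I} {a b c d : ℝ} (h1 : ‖A - A'‖ ≤ a) (h2 : ‖B‖ ≤ b)
    (h3 : ‖A'‖ ≤ c) (h4 : ‖B - B'‖ ≤ d) : ‖A * B - A' * B'‖ ≤ a * b + c * d := by
  have e : A * B - A' * B' = (A - A') * B + A' * (B - B') := by
    rw [sub_mul, mul_sub]; abel
  rw [e]
  exact (norm_add_le _ _).trans (add_le_add (mul_left_le h1 h2) (mul_left_le h3 h4))

lemma coord_le (x : En I) (i : I) : ‖x i‖ ≤ ‖x‖ := PiLp.norm_apply_le x i

section
variable {κ : Type w} [Fintype κ] [DecidableEq κ] (n : κ → ℕ) [∀ k, NeZero (n k)]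
  (e : (Σ k, ZMod (n k)) ≃ I)

/-- coordinates of the commutator of a diagonal operator and a block shift -/
lemma comm_coord (r : I → ℂ) (k : κ) (a : ZMod (n k)) (C : ℝ)
    (h : ‖dg r * pm (sh n e (Pi.single k a)) - pm (sh n e (Pi.single k a)) * dg r‖ ≤ C) :
    ‖r (e ⟨k, a⟩) - r (e ⟨k, 0⟩)‖ ≤ C := by
  set A := dg r * pm (sh n e (Pi.single k a)) - pm (sh n e (Pi.single k a)) * dg r with hA
  have h1 : (A (EuclideanSpace.single (e ⟨k, 0⟩) 1)) (e ⟨k, a⟩) = r (e ⟨k, a⟩) - r (e ⟨k, 0⟩) := by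
    rw [hA, ContinuousLinearMap.sub_apply, PiLp.sub_apply, ContinuousLinearMap.mul_apply,
      ContinuousLinearMap.mul_apply, dg_apply, pm_apply, pm_apply, sh_symm_apply,
      Pi.single_eq_same, sub_self, dg_apply]
    simp
  rw [← h1]
  refine (coord_le _ _).trans ((A.le_opNorm _).trans ?_)
  rw [single_norm, mul_one]
  exact h

/-- The block scalars. -/
lemma dg_block_uu (l : κ → ℂ) (k : κ) :
    dg (fun i => l (e.symm i).1) (uu n e (EuclideanSpace.single (e ⟨k, 0⟩) 1)) =
      l k • uu n e (EuclideanSpace.single (e ⟨k, 0⟩) 1) := by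
  apply ext_e n e
  intro m a
  rw [dg_apply, PiLp.smul_apply, smul_eq_mul]
  simp only [Equiv.symm_apply_apply]
  by_cases hmk : m = k
  · subst hmk; rfl
  · rw [uu_apply, Finset.sum_eq_zero, mul_zero, mul_zero]
    intro b _
    simp [hmk]

lemma dg_block_single (l : κ → ℂ) (k : κ) :
    dg (fun i => l (e.symm i).1) (EuclideanSpace.single (e ⟨k, 0⟩) 1) =
      l k • (EuclideanSpace.single (e ⟨k, 0⟩) (1 : ℂ) : En I) := by
  apply ext_e n e
  intro m a
  rw [dg_apply, PiLp.smul_apply, smul_eq_mul]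
  simp only [Equiv.symm_apply_apply]
  by_cases hmk : m = k
  · subst hmk; rfl
  · simp [hmk]

theorem block_of {τ : ℝ} (hτ0 : 0 ≤ τ) (hτ : τ ≤ 1 / 10 ^ 6)
    (S : (En I →L[ℂ] En I) → (En I →L[ℂ] En I))
    (hno : ∀ M : En I →L[ℂ] En I, ‖M‖ ≤ 1 → ‖S M‖ ≤ 3)
    (hdg : ∀ d : I → ℂ, (∀ i, ‖d i‖ ≤ 1) → ‖S (dg d) - dg d‖ ≤ 16 * τ)
    (hmul : ∀ M N : En I →L[ℂ] En I, ‖M‖ ≤ 1 → ‖N‖ ≤ 1 → ‖S M * S N - S (M * N)‖ ≤ 10 * τ)
    (hpm : ∀ p : Equiv.Perm I, ‖S (pm p) - pm p‖ ≤ 121 * τ) :
    ∃ l : κ → ℂ, (∀ k, ‖l k ^ 2 - 1‖ ≤ 15200 * τ) ∧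
        ‖S (uu n e) - uu n e * dg (fun i => l (e.symm i).1)‖ ≤ 2500 * τ := by
  set U := uu n e with hU
  have hUn : ‖U‖ ≤ 1 := norm_uu_le n e
  have hUs : ‖star U‖ ≤ 1 := norm_star_uu_le n e
  have hSU : ‖S U‖ ≤ 3 := hno U hUn
  have hUU : star U * U = 1 := uu_star_mul n e
  have hUU' : U * star U = 1 := uu_mul_star n e
  -- general transport through the Fourier matrix
  have key : ∀ (D W : En I →L[ℂ] En I) (α β : ℝ), ‖D‖ ≤ 1 → ‖W‖ ≤ 1 → U * D = W * U →
      ‖S D - D‖ ≤ α → ‖S W - W‖ ≤ β → ‖star U * S U * D - D * (star U * S U)‖ ≤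
        3 * α + 20 * τ + β * 3 := by
    intro D W α β hD hW hDW hα hβ
    have e1 : star U * W = D * star U := by
      calc star U * W = star U * W * (U * star U) := by rw [hUU', mul_one]
        _ = star U * (W * U) * star U := by simp only [mul_assoc]
        _ = star U * (U * D) * star U := by rw [hDW]
        _ = (star U * U) * D * star U := by simp only [mul_assoc]
        _ = D * star U := by rw [hUU, one_mul]
    have e2 : star U * S U * D - D * (star U * S U) = star U * (S U * D - W * S U) := by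
      rw [mul_sub, ← mul_assoc (star U) W (S U), e1]
      simp only [mul_assoc]
    have e3 : S U * D - W * S U = S U * (D - S D) + (S U * S D - S (U * D)) +
        (S (W * U) - S W * S U) + (S W - W) * S U := by
      rw [hDW, mul_sub, sub_mul]
      abel
    have n1 : ‖S U * (D - S D)‖ ≤ 3 * α := mul_left_le hSU (by rw [norm_sub_rev]; exact hα)
    have n2 := hmul U D hUn hD
    have n3 : ‖S (W * U) - S W * S U‖ ≤ 10 * τ := by rw [norm_sub_rev]; exact hmul W U hW hUn
    have n4 : ‖(S W - W) * S U‖ ≤ β * 3 := mul_left_le hβ hSU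
    have n5 : ‖S U * D - W * S U‖ ≤ 3 * α + 20 * τ + β * 3 := by
      rw [e3]
      have := norm_add₄_le (a := S U * (D - S D)) (b := (S U * S D - S (U * D)))
        (c := (S (W * U) - S W * S U)) (d := (S W - W) * S U)
      linarith
    rw [e2]
    calc _ ≤ 1 * (3 * α + 20 * τ + β * 3) := mul_left_le hUs n5
      _ = _ := one_mul _
  set R := star U * S U with hR
  set r : I → ℂ := fun i => (R (EuclideanSpace.single i 1)) i with hr
  -- the diagonal part
  have hdiag : ‖R - dg r‖ ≤ 605 * τ := by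
    apply avg_diag (fun z : (κ → ℤˣ) × (∀ k, ZMod (n k)) =>
      fun i => si n e z.1 i * mo n e z.2 i)
    · intro z i
      rw [norm_mul, norm_si, norm_mo, one_mul]
    · exact orth_mod n e
    · rintro ⟨θ, c⟩
      have hD : ‖dg (fun i => si n e θ i * mo n e c i)‖ ≤ 1 := norm_dg_le _ 1 zero_le_one
        (fun i => by rw [norm_mul, norm_si, norm_mo, one_mul])
      have hθ : ‖dg (si n e θ)‖ ≤ 1 := norm_dg_le _ 1 zero_le_one (fun i => by rw [norm_si])
      have hp := norm_pm_le (sh n e (fun k => - c k))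
      have hW : ‖dg (si n e θ) * pm (sh n e (fun k => - c k))‖ ≤ 1 := by
        have := mul_left_le hθ hp
        linarith
      have hβ : ‖S (dg (si n e θ) * pm (sh n e (fun k => - c k))) -
          dg (si n e θ) * pm (sh n e (fun k => - c k))‖ ≤ 179 * τ := by
        have m1 := hmul _ _ hθ hp
        have m2 := mul_close (hdg (si n e θ) (fun i => by rw [norm_si]))
          (hno _ hp) hθ (hpm (sh n e (fun k => - c k)))
        have m3 := norm_add_le
          (-(S (dg (si n e θ)) * S (pm (sh n e (fun k => - c k))) -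
            S (dg (si n e θ) * pm (sh n e (fun k => - c k)))))
          (S (dg (si n e θ)) * S (pm (sh n e (fun k => - c k))) -
            dg (si n e θ) * pm (sh n e (fun k => - c k)))
        rw [norm_neg] at m3
        have e1 : -(S (dg (si n e θ)) * S (pm (sh n e (fun k => - c k))) -
            S (dg (si n e θ) * pm (sh n e (fun k => - c k)))) +
          (S (dg (si n e θ)) * S (pm (sh n e (fun k => - c k))) -
            dg (si n e θ) * pm (sh n e (fun k => - c k))) =
          S (dg (si n e θ) * pm (sh n e (fun k => - c k))) -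
          dg (si n e θ) * pm (sh n e (fun k => - c k)) := by abel
        rw [e1] at m3
        linarith
      have := key _ _ (16 * τ) (179 * τ) hD hW (uu_mod n e θ c)
        (hdg _ (fun i => by rw [norm_mul, norm_si, norm_mo, one_mul])) hβ
      linarith
  -- shifts
  have hshift : ∀ c : ∀ k, ZMod (n k), ‖dg r * pm (sh n e c) - pm (sh n e c) * dg r‖ ≤
      1641 * τ := by
    intro c
    have hX := norm_pm_le (sh n e c)
    have hD : ‖dg (mo n e c)‖ ≤ 1 := norm_dg_le _ 1 zero_le_one (fun i => by rw [norm_mo])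
    have h1 := key (pm (sh n e c)) (dg (mo n e c)) (121 * τ) (16 * τ) hX hD (uu_shift n e c)
      (hpm _) (hdg _ (fun i => by rw [norm_mo]))
    have e1 : dg r * pm (sh n e c) - pm (sh n e c) * dg r =
        -((R - dg r) * pm (sh n e c)) + (R * pm (sh n e c) - pm (sh n e c) * R) +
          pm (sh n e c) * (R - dg r) := by
      rw [sub_mul, mul_sub]; abel
    rw [e1]
    have n1 := mul_left_le hdiag hX
    have n2 := mul_left_le hX hdiag
    have n3 := norm_add₃_le (a := -((R - dg r) * pm (sh n e c)))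
      (b := (R * pm (sh n e c) - pm (sh n e c) * R)) (c := pm (sh n e c) * (R - dg r))
    rw [norm_neg] at n3
    linarith
  -- the block scalars
  set l : κ → ℂ := fun k => r (e ⟨k, 0⟩) with hl
  have hrl : ∀ i, ‖r i - l (e.symm i).1‖ ≤ 1641 * τ := by
    intro i
    obtain ⟨⟨k, a⟩, rfl⟩ := e.surjective i
    simp only [Equiv.symm_apply_apply, hl]
    exact comm_coord n e r k a _ (hshift _)
  have hRl : ‖R - dg (fun i => l (e.symm i).1)‖ ≤ 2246 * τ := by
    have h1 : ‖dg r - dg (fun i => l (e.symm i).1)‖ ≤ 1641 * τ := by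
      rw [dg_sub]
      exact norm_dg_le _ _ (by positivity) hrl
    have h2 := norm_add_le (R - dg r) (dg r - dg (fun i => l (e.symm i).1))
    rw [sub_add_sub_cancel] at h2
    linarith
  set Λ := dg (fun i => l (e.symm i).1) with hΛ
  have hSUl : ‖S U - U * Λ‖ ≤ 2246 * τ := by
    have e1 : S U - U * Λ = U * (R - Λ) := by
      rw [mul_sub, hR, ← mul_assoc, hUU', one_mul]
    rw [e1]
    calc _ ≤ 1 * (2246 * τ) := mul_left_le hUn hRl
      _ = _ := one_mul _
  refine ⟨l, ?_, by linarith⟩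
  intro k
  have hULn : ‖U * Λ‖ ≤ 3.01 := by
    have h1 := norm_sub_le (S U) (S U - U * Λ)
    rw [sub_sub_cancel] at h1
    have : 2246 * τ ≤ 0.01 := by
      have : (1 : ℝ) / 10 ^ 6 * 2246 ≤ 0.01 := by norm_num
      linarith
    linarith
  have hsq : ‖(U * Λ) * (U * Λ) - U * U‖ ≤ 15200 * τ := by
    have h1 := mul_close hSUl hSU hULn hSUl
    have h2 := hmul U U hUn hUn
    have h3 := hpm (par n e)
    rw [← uu_sq n e] at h3
    have e1 : (U * Λ) * (U * Λ) - U * U = -(S U * S U - (U * Λ) * (U * Λ)) +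
        (S U * S U - S (U * U)) + (S (U * U) - U * U) := by abel
    rw [e1]
    have n3 := norm_add₃_le (a := -(S U * S U - (U * Λ) * (U * Λ)))
      (b := (S U * S U - S (U * U))) (c := (S (U * U) - U * U))
    rw [norm_neg] at n3
    have h3' : ‖S (U * U) - U * U‖ ≤ 121 * τ := h3
    linarith
  have hcoord : (((U * Λ) * (U * Λ) - U * U) (EuclideanSpace.single (e ⟨k, 0⟩) 1)) (e ⟨k, 0⟩) =
      l k ^ 2 - 1 := by
    have a1 : (U * Λ) (EuclideanSpace.single (e ⟨k, 0⟩) 1) =
        l k • U (EuclideanSpace.single (e ⟨k, 0⟩) 1) := by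
      rw [ContinuousLinearMap.mul_apply, hΛ, dg_block_single, map_smul]
    have a2 : (U * Λ) (U (EuclideanSpace.single (e ⟨k, 0⟩) 1)) =
        l k • U (U (EuclideanSpace.single (e ⟨k, 0⟩) 1)) := by
      rw [ContinuousLinearMap.mul_apply, hΛ, hU, dg_block_uu, map_smul]
    have a3 : U (U (EuclideanSpace.single (e ⟨k, 0⟩) 1)) (e ⟨k, 0⟩) = 1 := by
      have := congrArg (fun A : En I →L[ℂ] En I =>
        (A (EuclideanSpace.single (e ⟨k, 0⟩) 1)) (e ⟨k, 0⟩)) (uu_sq n e)
      simp only [ContinuousLinearMap.mul_apply] at this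
      rw [hU, this, pm_apply, par_symm_apply, neg_zero]
      simp
    rw [ContinuousLinearMap.sub_apply, PiLp.sub_apply, ContinuousLinearMap.mul_apply, a1,
      map_smul, a2, PiLp.smul_apply, PiLp.smul_apply, ContinuousLinearMap.mul_apply, a3]
    simp only [smul_eq_mul]
    ring
  rw [← hcoord]
  refine (coord_le _ _).trans ((ContinuousLinearMap.le_opNorm _ _).trans ?_)
  rw [single_norm, mul_one]
  exact hsq

end

end Pool.Agent.helper71.CK
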